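import Mathlib

set_option autoImplicit false

open Filter Topology Finset
open scoped ENNReal

namespace Pool.Agent.Results.MP_d99131_an.NoRatioLimit

open Classical in
/-- upper density of a set of positive integers -/
noncomputable def udens (B : Set ℕ) : ℝ :=
  limsup (fun N : ℕ => (((Finset.Icc 1 N).filter (fun n => n ∈ B)).card : ℝ) / N) atTop

/-- property 𝒜 for the sequence of operators `lam n • T ^ n` -/
def PropA {X : Type} [NormedAddCommGroup X] [NormedSpace ℂ X] (lam : ℕ → ℂ) (T : X →L[ℂ] X) :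
    Prop :=
  ∀ U : Set X, IsOpen U → U.Nonempty → ∃ x : X, 0 < udens {n | lam n • (T ^ n) x ∈ U}

/-- topological multiple recurrence -/
def MultRec {X : Type} [NormedAddCommGroup X] [NormedSpace ℂ X] (T : X →L[ℂ] X) : Prop :=
  ∀ U : Set X, IsOpen U → U.Nonempty → ∀ m : ℕ, 1 ≤ m → ∃ k : ℕ, 1 ≤ k ∧
    ∃ x : X, ∀ j ≤ m, (T ^ (j * k)) x ∈ U

/-- good sequences -/
def Good (lam : ℕ → ℂ) : Prop :=
  ∀ (X : Type) [NormedAddCommGroup X] [NormedSpace ℂ X] [CompleteSpace X]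
    [TopologicalSpace.SeparableSpace X], ¬ FiniteDimensional ℂ X →
    ∀ T : X →L[ℂ] X, PropA lam T → MultRec T

/-- for no positive `τ` does the ratio have a limit in `[0,∞]` -/
def NoLimit (lam : ℕ → ℂ) : Prop :=
  ∀ τ : ℕ, 1 ≤ τ → ∀ L : ℝ≥0∞,
    ¬ Tendsto (fun n => ENNReal.ofReal (‖lam n‖ / ‖lam (n + τ)‖)) atTop (𝓝 L)

open Classical in
/-- change a sequence to the value `2` at the powers of two -/
noncomputable def modif (mu : ℕ → ℂ) (n : ℕ) : ℂ := if ∃ k, n = 2 ^ k then 2 else mu n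

open Classical in
lemma bdd (B : Set ℕ) (N : ℕ) :
    0 ≤ (((Finset.Icc 1 N).filter (fun n => n ∈ B)).card : ℝ) / N ∧
    (((Finset.Icc 1 N).filter (fun n => n ∈ B)).card : ℝ) / N ≤ 1 := by
  refine ⟨by positivity, ?_⟩
  rcases Nat.eq_zero_or_pos N with rfl | h
  · simp
  · rw [div_le_one (by exact_mod_cast h)]
    have := Finset.card_filter_le (Finset.Icc 1 N) (fun n => n ∈ B)
    simp at this
    exact_mod_cast this

open Classical in
lemma pos_iff (B : Set ℕ) : 0 < udens B ↔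
    ∃ δ : ℝ, 0 < δ ∧ ∃ᶠ N : ℕ in atTop,
      δ ≤ (((Finset.Icc 1 N).filter (fun n => n ∈ B)).card : ℝ) / N := by
  constructor
  · intro h
    refine ⟨udens B / 2, by linarith, ?_⟩
    have : udens B / 2 < udens B := by linarith
    refine (frequently_lt_of_lt_limsup ?_ this).mono (fun _ h => h.le)
    exact isCoboundedUnder_le_of_le atTop (x := 0) (fun N => (bdd B N).1)
  · rintro ⟨δ, hδ, h⟩
    refine hδ.trans_le (le_limsup_of_frequently_le h ?_)
    exact isBoundedUnder_of ⟨1, fun N => (bdd B N).2⟩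

lemma log_small (K : ℕ) : Tendsto (fun N : ℕ => ((Nat.log 2 N : ℝ) + 1 + K) / N) atTop (𝓝 0) := by
  have h1 : Tendsto (fun N : ℕ => Real.log N / N) atTop (𝓝 0) :=
    (Real.isLittleO_log_id_atTop.tendsto_div_nhds_zero).comp tendsto_natCast_atTop_atTop
  have h2 : Tendsto (fun N : ℕ => ((1 : ℝ) + K) / N) atTop (𝓝 0) :=
    tendsto_const_div_atTop_nhds_zero_nat _
  have h3 := (h1.const_mul 2).add h2
  simp only [mul_zero, add_zero] at h3
  refine squeeze_zero' (Eventually.of_forall fun N => by positivity) ?_ h3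
  filter_upwards [eventually_ge_atTop 1] with N hN
  have hN' : (0 : ℝ) < N := by exact_mod_cast hN
  have h4 : (2 : ℝ) ^ Nat.log 2 N ≤ N := by exact_mod_cast Nat.pow_log_le_self 2 (by omega)
  have h5 := Real.log_le_log (by positivity) h4
  rw [Real.log_pow] at h5
  have h6 := Real.log_two_gt_d9
  have h7 : (0 : ℝ) ≤ Nat.log 2 N := by positivity
  rw [← mul_div_assoc, ← add_div, div_le_div_iff_of_pos_right hN']
  nlinarith

open Classical in
lemma drop (A B : Set ℕ) (K : ℕ) (h : ∀ n ∈ A, n ∈ B ∨ (∃ k, n = 2 ^ k) ∨ n < K)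
    (hA : 0 < udens A) : 0 < udens B := by
  rw [pos_iff] at hA ⊢
  obtain ⟨δ, hδ, hf⟩ := hA
  refine ⟨δ / 2, by linarith, ?_⟩
  have hs := (log_small K).eventually (gt_mem_nhds (show (0 : ℝ) < δ / 2 by linarith))
  refine (hf.and_eventually hs).mono (fun N ⟨h1, h2⟩ => ?_)
  have hsub : (Finset.Icc 1 N).filter (fun n => n ∈ A) ⊆
      (Finset.Icc 1 N).filter (fun n => n ∈ B) ∪
        ((range (Nat.log 2 N + 1)).image (fun k => 2 ^ k) ∪ range K) := by
    intro n hn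
    simp only [mem_filter, mem_union, mem_image, mem_range, Finset.mem_Icc] at hn ⊢
    rcases h n hn.2 with h' | ⟨k, rfl⟩ | h'
    · exact Or.inl ⟨hn.1, h'⟩
    · refine Or.inr (Or.inl ⟨k, ?_, rfl⟩)
      have := Nat.le_log_of_pow_le (by norm_num : 1 < 2) hn.1.2
      omega
    · exact Or.inr (Or.inr h')
  have hc := (card_le_card hsub).trans ((card_union_le _ _).trans
    (Nat.add_le_add_left ((card_union_le _ _).trans
      (Nat.add_le_add_right card_image_le _)) _))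
  simp only [card_range] at hc
  have hc' : (((Finset.Icc 1 N).filter (fun n => n ∈ A)).card : ℝ) ≤
      ((Finset.Icc 1 N).filter (fun n => n ∈ B)).card + ((Nat.log 2 N : ℝ) + 1 + K) := by
    exact_mod_cast hc
  have := div_le_div_of_nonneg_right hc' (Nat.cast_nonneg (α := ℝ) N)
  rw [add_div] at this
  linarith

lemma good_modif (mu : ℕ → ℂ) (h : Good mu) : Good (modif mu) := by
  intro X _ _ _ _ hX T hA
  refine h X hX T (fun U hU hne => ?_)
  obtain ⟨x, hx⟩ := hA U hU hne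
  refine ⟨x, drop _ _ 0 (fun n hn => ?_) hx⟩
  by_cases hk : ∃ k, n = 2 ^ k
  · exact Or.inr (Or.inl hk)
  · left
    simpa [modif, hk] using hn

lemma notpow {k τ : ℕ} (hτ : 1 ≤ τ) (hk : τ < 2 ^ k) :
    (¬ ∃ j, 2 ^ (k + 1) + τ = 2 ^ j) ∧ (¬ ∃ j, 2 ^ (k + 1) - τ = 2 ^ j) := by
  have e1 : 2 ^ (k + 1) = 2 * 2 ^ k := by ring
  have e2 : 2 ^ (k + 2) = 4 * 2 ^ k := by ring
  constructor
  · rintro ⟨j, hj⟩
    have h1 : 2 ^ (k + 1) < 2 ^ j := by omega
    have h2 : 2 ^ j < 2 ^ (k + 2) := by omega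
    rw [Nat.pow_lt_pow_iff_right (by norm_num)] at h1 h2
    omega
  · rintro ⟨j, hj⟩
    have h1 : 2 ^ k < 2 ^ j := by omega
    have h2 : 2 ^ j < 2 ^ (k + 1) := by omega
    rw [Nat.pow_lt_pow_iff_right (by norm_num)] at h1 h2
    omega

lemma nolim (mu : ℕ → ℂ) (h0 : ∀ n, mu n ≠ 0) (h1 : ∀ n, ‖mu n‖ ≤ 1) : NoLimit (modif mu) := by
  intro τ hτ L hL
  have t1 : Tendsto (fun k : ℕ => 2 ^ (k + 1)) atTop atTop :=
    (tendsto_pow_atTop_atTop_of_one_lt (by norm_num : 1 < 2)).comp (tendsto_add_atTop_nat 1)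
  have t2 : Tendsto (fun k : ℕ => 2 ^ (k + 1) - τ) atTop atTop :=
    (tendsto_sub_atTop_nat τ).comp t1
  have ev : ∀ᶠ k : ℕ in atTop, τ < 2 ^ k :=
    (tendsto_pow_atTop_atTop_of_one_lt (by norm_num : 1 < 2)).eventually (eventually_gt_atTop τ)
  have a1 : ENNReal.ofReal 2 ≤ L := by
    refine ge_of_tendsto (hL.comp t1) ?_
    filter_upwards [ev] with k hk
    apply ENNReal.ofReal_le_ofReal
    simp only [modif]
    rw [if_pos ⟨_, rfl⟩, if_neg (notpow hτ hk).1, le_div_iff₀ (norm_pos_iff.2 (h0 _))]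
    have := h1 (2 ^ (k + 1) + τ)
    simp only [Complex.norm_ofNat]
    linarith
  have a2 : L ≤ ENNReal.ofReal (1 / 2) := by
    refine le_of_tendsto (hL.comp t2) ?_
    filter_upwards [ev] with k hk
    apply ENNReal.ofReal_le_ofReal
    have e : 2 ^ (k + 1) - τ + τ = 2 ^ (k + 1) := by
      have : 2 ^ (k + 1) = 2 * 2 ^ k := by ring
      omega
    simp only [modif]
    rw [if_neg (notpow hτ hk).2, if_pos ⟨_, e⟩]
    have := h1 (2 ^ (k + 1) - τ)
    simp only [Complex.norm_ofNat]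
    linarith
  have := a1.trans a2
  rw [ENNReal.ofReal_le_ofReal_iff (by norm_num)] at this
  norm_num at this

lemma good_fact : Good (fun n => ((n.factorial : ℂ))⁻¹) := by
  intro X _ _ _ _ hX T hA
  exfalso
  have : Nontrivial X := by
    by_contra hn
    rw [not_nontrivial_iff_subsingleton] at hn
    exact hX inferInstance
  obtain ⟨y, hy⟩ := exists_norm_eq X (zero_le_two (α := ℝ))
  obtain ⟨x, hx⟩ := hA {z | 1 < ‖z‖} (isOpen_lt continuous_const continuous_norm)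
    ⟨y, by simp [hy]⟩
  have ht : Tendsto (fun n : ℕ => ‖T‖ ^ n / n.factorial * ‖x‖) atTop (𝓝 0) := by
    simpa using (FloorSemiring.tendsto_pow_div_factorial_atTop ‖T‖).mul_const ‖x‖
  obtain ⟨K, hK⟩ := eventually_atTop.1 (ht.eventually (gt_mem_nhds one_pos))
  have := drop _ ∅ (K + 1) (fun n hn => ?_) hx
  · rw [pos_iff] at this
    obtain ⟨δ, hδ, hf⟩ := this
    obtain ⟨N, hN⟩ := hf.exists
    simp at hN
    linarith
  · right; right
    by_contra hlt
    have h1 := hK n (by omega)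
    simp only [Set.mem_setOf_eq, norm_smul, norm_inv, Complex.norm_natCast] at hn
    have h2 : ‖(T ^ n) x‖ ≤ ‖T‖ ^ n * ‖x‖ :=
      ((T ^ n).le_opNorm x).trans
        (mul_le_mul_of_nonneg_right (norm_pow_le' T (by omega)) (norm_nonneg _))
    have h3 : ((n.factorial : ℝ))⁻¹ * ‖(T ^ n) x‖ ≤ ‖T‖ ^ n / n.factorial * ‖x‖ := by
      rw [div_mul_eq_mul_div, div_eq_inv_mul]
      gcongr
    linarith

theorem result :
    (∃ lam : ℕ → ℂ, (∀ n, lam n ≠ 0) ∧ Good lam ∧ NoLimit lam) ∧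
    (∀ mu : ℕ → ℂ, (∀ n, mu n ≠ 0) → (∀ n, ‖mu n‖ ≤ 1) → Good mu →
      (∀ n, modif mu n ≠ 0) ∧ Good (modif mu) ∧ NoLimit (modif mu)) := by
  have key : ∀ mu : ℕ → ℂ, (∀ n, mu n ≠ 0) → (∀ n, ‖mu n‖ ≤ 1) → Good mu →
      (∀ n, modif mu n ≠ 0) ∧ Good (modif mu) ∧ NoLimit (modif mu) := by
    intro mu h0 h1 hg
    refine ⟨fun n => ?_, good_modif mu hg, nolim mu h0 h1⟩
    unfold modif
    split_ifs
    · norm_num
    · exact h0 n
  refine ⟨⟨_, key _ (fun n => ?_) (fun n => ?_) good_fact⟩, key⟩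
  · exact inv_ne_zero (by exact_mod_cast n.factorial_ne_zero)
  · rw [norm_inv, Complex.norm_natCast]
    exact inv_le_one_of_one_le₀ (by exact_mod_cast n.factorial_pos)

end Pool.Agent.Results.MP_d99131_an.NoRatioLimit
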